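import Pool.Agent.Helper52.SX.Goals3
import Pool.Agent.Helper83.JT.CKE

/-!
# Project SX, packet FPR: the certified tuple loses little
-/

set_option autoImplicit false

namespace Pool.Agent.Helper30.SX

open Pool.Agent.Helper52.SX Pool.Agent.Helper78.DT
open Pool.Agent.Helper78.JT (Clause CList Circuit Holds out cnt size Narrow lsize)
open scoped Classical

theorem length_le_lsize (f : CList) : f.length ≤ lsize f := by
  unfold lsize
  induction f with
  | nil => simp
  | cons e f ih =>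
    rw [List.map_cons, List.sum_cons, List.length_cons]
    omega

theorem length_tests_le (z : Circuit) : z.2.1.flatten.length ≤ size z := by
  unfold size
  rw [List.length_flatten]
  have h : (z.2.1.map List.length).sum ≤ (z.2.1.map fun f => 1 + lsize f).sum := by
    refine List.sum_le_sum fun f _ => ?_
    have := length_le_lsize f
    omega
  omega

theorem fpr (hCl : ClnStmt) (hCnv : CnvStmt) (hExh : ExhStmt) : FprStmt := by
  intro z D k hk hN
  have hcard : (Fintype.card (Fin z.1 → Bool) : ℝ) = 2 ^ z.1 := by simp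
  have h1 : (cnt z : ℝ) / 2 ^ z.1 = pr fun r : Fin z.1 → Bool => out z r = true := by
    rw [pr_eq_card, hcard]
    rfl
  have h2 : fract z.1 (cnv D z.2.1.length z) =
      pr fun r : Fin z.1 → Bool => tv r (cnv D z.2.1.length z) = true := by
    rw [pr_eq_card, hcard]
    rfl
  have hk2 : (2 : ℝ) ≤ k := by exact_mod_cast hk
  have hA : (0 : ℝ) ≤ 1 - 1 / ((k : ℝ) * 2 ^ k) := by
    have h3 : (1 : ℝ) ≤ (k : ℝ) * 2 ^ k := by
      have : (1 : ℝ) ≤ 2 ^ k := one_le_pow₀ (by norm_num)
      nlinarith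
    have h4 : 1 / ((k : ℝ) * 2 ^ k) ≤ 1 := by
      rw [div_le_one (by linarith)]
      exact h3
    linarith
  have h3 : ∀ e ∈ z.2.1.flatten,
      pr (fun r : Fin z.1 → Bool => 2 ≤ nx (cl z.1 e.1) (run (cl z.1 e.1) r D)) ≤
        2 * 3 ^ (k * (Nat.log 2 (size z) + 1)) * (1 - 1 / ((k : ℝ) * 2 ^ k)) ^ D := by
    intro e he
    obtain ⟨f, hf, he⟩ := List.mem_flatten.1 he
    refine (hExh z.1 k (cl z.1 e.1) D hk (hCl z.1 e.1).1).trans ?_
    refine mul_le_mul_of_nonneg_right ?_ (pow_nonneg hA D)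
    refine mul_le_mul_of_nonneg_left ?_ (by norm_num)
    exact pow_le_pow_right₀ (by norm_num) (((hCl z.1 e.1).2.2 k).trans (hN f hf e he))
  have h4 := Pool.Agent.Helper83.JT.pr_list_le z.2.1.flatten
    (fun e (r : Fin z.1 → Bool) => 2 ≤ nx (cl z.1 e.1) (run (cl z.1 e.1) r D)) _ h3
  have h5 : (pr fun r : Fin z.1 → Bool => out z r = true) ≤
      (pr fun r : Fin z.1 → Bool => tv r (cnv D z.2.1.length z) = true) +
        pr fun r : Fin z.1 → Bool =>
          ∃ e ∈ z.2.1.flatten, 2 ≤ nx (cl z.1 e.1) (run (cl z.1 e.1) r D) := by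
    refine pr_le_add_of_imp fun r hr => ?_
    rcases (hCnv D z r).2 hr with h | ⟨f, hf, e, he, h⟩
    · exact Or.inl h
    · exact Or.inr ⟨e, List.mem_flatten.2 ⟨f, hf, he⟩, h⟩
  have h6 : (z.2.1.flatten.length : ℝ) ≤ size z := by exact_mod_cast length_tests_le z
  have h7 : (0 : ℝ) ≤ 2 * 3 ^ (k * (Nat.log 2 (size z) + 1)) *
      (1 - 1 / ((k : ℝ) * 2 ^ k)) ^ D := by positivity
  rw [h1, h2]
  have h8 := mul_le_mul_of_nonneg_right h6 h7
  linarith

end Pool.Agent.Helper30.SX
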