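import Pool.Agent.Helper52.SX.Goals2
import Pool.Agent.Helper3.DT.PTL
import Pool.Agent.Helper93.CS.CNT

/-!
# Project SX, packet POL: the decision lists of a circuit in polynomial time
-/

set_option autoImplicit false

namespace Pool.Agent.Helper30.SX

open Pool.Agent.Helper52.SX Pool.Agent.Helper78.DT Pool.Agent.Helper81.CC Pool.Agent.Helper51.ZP
open Pool.Agent.Helper78.JT (Clause CList)

/-! ### Removing repetitions -/

section

variable {β : Type} [ToData β] [DecidableEq β]

/-- One step of the computation of `dedup`. -/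
def dst (acc : List β) (v : β) : List β := if v ∈ acc then acc else v :: acc

omit [ToData β] in
theorem dedup_eq (l : List β) : l.reverse.foldl dst [] = l.dedup := by
  induction l with
  | nil => rfl
  | cons v l ih =>
    rw [List.reverse_cons, List.foldl_append, ih]
    simp only [List.foldl_cons, List.foldl_nil]
    unfold dst
    by_cases h : v ∈ l
    · rw [if_pos (List.mem_dedup.2 h), List.dedup_cons_of_mem h]
    · rw [if_neg (fun h' => h (List.mem_dedup.1 h')), List.dedup_cons_of_notMem h]

theorem pt_dedup {γ : Type} [ToData γ] {l : γ → List β} (hl : PolyTime l) :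
    PolyTime fun c => (l c).dedup := by
  have h1 : PolyTime fun c => (l c).reverse.foldl dst [] := by
    refine PolyTime.foldl_add (s0 := fun _ : γ => ([] : List β)) (step := fun _ acc v => dst acc v)
      (PolyTime.reverse hl) (by fun_prop) ?_ (C := fun c => sz (l c) + 1)
      (hl.bd.add (PBd.const 1)) ?_
    · unfold dst
      exact PolyTime.itep (PolyTime.decide_mem (by fun_prop) (by fun_prop)) (by fun_prop)
        (by fun_prop)
    · intro c s v hv
      have h2 : sz v ≤ sz (l c) := sz_le_of_mem (List.mem_reverse.1 hv)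
      change sz (dst s v) ≤ _
      unfold dst
      split_ifs with h
      · omega
      · rw [sz_cons]
        omega
  exact PolyTime.congr h1 fun c => dedup_eq _

end

variable {γ : Type} [ToData γ]

theorem pt_cl {n : γ → ℕ} {F : γ → List Clause} (hn : PolyTime n) (hF : PolyTime F) :
    PolyTime fun c => cl (n c) (F c) := by
  unfold cl
  refine PolyTime.list_map (l := fun c => (F c).filter fun C =>
      !(C.any fun p => C.contains (p.1, !p.2) || (decide (n c ≤ p.1) && !p.2)))
    (f := fun c C => (C.filter fun p => decide (p.1 < n c)).dedup) ?_ ?_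
  · refine PolyTime.filter (l := F) (f := fun c C =>
      !(C.any fun p => C.contains (p.1, !p.2) || (decide (n c ≤ p.1) && !p.2))) hF ?_
    refine PolyTime.not ?_
    refine PolyTime.any (l := fun z : γ × Clause => z.2)
      (f := fun z p => z.2.contains (p.1, !p.2) || (decide (n z.1 ≤ p.1) && !p.2))
      (by fun_prop) ?_
    have h1 : PolyTime fun z : (γ × Clause) × (ℕ × Bool) => n z.1.1 :=
      PolyTime.comp hn (by fun_prop)
    have h2 : PolyTime fun z : (γ × Clause) × (ℕ × Bool) => z.1.2.contains (z.2.1, !z.2.2) :=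
      PolyTime.contains (f := fun z : (γ × Clause) × (ℕ × Bool) => (z.2.1, !z.2.2))
        (l := fun z => z.1.2) (by fun_prop) (by fun_prop)
    have h3 : PolyTime fun z : (γ × Clause) × (ℕ × Bool) => decide (n z.1.1 ≤ z.2.1) :=
      PolyTime.decide_le h1 (by fun_prop)
    exact PolyTime.or h2 (PolyTime.and h3 (by fun_prop))
  · refine pt_dedup ?_
    refine PolyTime.filter (l := fun z : γ × Clause => z.2)
      (f := fun z p => decide (p.1 < n z.1)) (by fun_prop) ?_
    have h1 : PolyTime fun z : (γ × Clause) × (ℕ × Bool) => n z.1.1 :=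
      PolyTime.comp hn (by fun_prop)
    exact PolyTime.decide_lt (by fun_prop) h1

theorem nx_eq (F : List Clause) (a : List (ℕ × Bool)) :
    nx F a = (F.find? fun C => !(C.any fun p => a.contains p)).elim 1 fun C =>
      (C.find? fun p => !a.contains (p.1, !p.2)).elim 0 fun p => p.1 + 2 := by
  unfold nx
  split
  · next h => rw [h]; rfl
  · next C h =>
    rw [h]
    simp only [Option.elim_some]
    split
    · next p h' => rw [h']; rfl
    · next h' => rw [h']; rfl

theorem pt_nx {F : γ → List Clause} {a : γ → List (ℕ × Bool)} (hF : PolyTime F)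
    (ha : PolyTime a) : PolyTime fun c => nx (F c) (a c) := by
  have h1 : PolyTime fun c => (F c).find? fun C => !(C.any fun p => (a c).contains p) := by
    refine PolyTime.find? (l := F) (f := fun c C => !(C.any fun p => (a c).contains p)) hF ?_
    refine PolyTime.not ?_
    refine PolyTime.any (l := fun z : γ × Clause => z.2) (f := fun z p => (a z.1).contains p)
      (by fun_prop) ?_
    exact PolyTime.contains (f := fun z : (γ × Clause) × (ℕ × Bool) => z.2)
      (l := fun z => a z.1.1) (by fun_prop) (PolyTime.comp ha (by fun_prop))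
  have h2 : PolyTime fun z : γ × Clause => z.2.find? fun p => !(a z.1).contains (p.1, !p.2) := by
    refine PolyTime.find? (l := fun z : γ × Clause => z.2)
      (f := fun z p => !(a z.1).contains (p.1, !p.2)) (by fun_prop) ?_
    refine PolyTime.not ?_
    exact PolyTime.contains (f := fun z : (γ × Clause) × (ℕ × Bool) => (z.2.1, !z.2.2))
      (l := fun z => a z.1.1) (by fun_prop) (PolyTime.comp ha (by fun_prop))
  have h3 : PolyTime fun z : γ × Clause =>
      (z.2.find? fun p => !(a z.1).contains (p.1, !p.2)).elim 0 fun p => p.1 + 2 :=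
    PolyTime.option_elim (g := fun _ (p : ℕ × Bool) => p.1 + 2) h2 (by fun_prop) (by fun_prop)
  have h4 := PolyTime.option_elim (f := fun _ : γ => 1) (g := fun (c : γ) (C : Clause) =>
      (C.find? fun p => !(a c).contains (p.1, !p.2)).elim 0 fun p => p.1 + 2) h1
    (by fun_prop) h3
  exact PolyTime.congr h4 fun c => (nx_eq _ _).symm

theorem two_pow_lg (N : ℕ) : 2 ^ lg N ≤ 4 * N + 4 := by
  unfold lg
  rcases Nat.eq_zero_or_pos N with rfl | h
  · simp
  · have h1 : 2 ^ Nat.log 2 N ≤ N := Nat.pow_log_le_self 2 (by omega)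
    rw [pow_add]
    omega

theorem pt_lvs (hC : ClnStmt) (hL : LevStmt) (K0 : ℕ) {n N : γ → ℕ} {F : γ → List Clause}
    (hn : PolyTime n) (hN : PolyTime N) (hF : PolyTime F) :
    PolyTime fun c => lvs (cl (n c) (F c)) (K0 * lg (N c)) := by
  have hD : PolyTime fun c => K0 * lg (N c) :=
    PolyTime.mul (by fun_prop) (Pool.Agent.Helper93.CS.pt_lg hN)
  have hcl := pt_cl hn hF
  have hP : PolyTime fun c => (4 * N c + 4) ^ K0 := PolyTime.pow (by fun_prop) K0
  unfold lvs
  refine PolyTime.iterate_bd (n := fun c => K0 * lg (N c))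
    (s0 := fun _ => ([[]] : List (List (ℕ × Bool))))
    (step := fun c H => H.flatMap fun a =>
      if 2 ≤ nx (cl (n c) (F c)) a then
        [a ++ [(nx (cl (n c) (F c)) a - 2, false)], a ++ [(nx (cl (n c) (F c)) a - 2, true)]]
      else [a]) hD (by fun_prop) ?_
    (B := fun c => (4 * N c + 4) ^ K0 *
      ((K0 * lg (N c)) * ((2 * n c + 6) + 1) + 1 + 1) + 1)
    (((PBd.nat hP).mul ((((PBd.nat hD).mul ((((PBd.const 2).mul (PBd.nat hn)).add
      (PBd.const 6)).add (PBd.const 1))).add (PBd.const 1)).add (PBd.const 1))).add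
      (PBd.const 1)) ?_
  · refine PolyTime.flatMap (l := fun z : γ × List (List (ℕ × Bool)) => z.2)
      (f := fun (z : γ × List (List (ℕ × Bool))) a =>
        if 2 ≤ nx (cl (n z.1) (F z.1)) a then
          [a ++ [(nx (cl (n z.1) (F z.1)) a - 2, false)],
            a ++ [(nx (cl (n z.1) (F z.1)) a - 2, true)]]
        else [a]) (by fun_prop) ?_
    have h1 : PolyTime fun z : (γ × List (List (ℕ × Bool))) × List (ℕ × Bool) =>
        nx (cl (n z.1.1) (F z.1.1)) z.2 :=
      pt_nx (F := fun z : (γ × List (List (ℕ × Bool))) × List (ℕ × Bool) =>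
        cl (n z.1.1) (F z.1.1)) (PolyTime.comp hcl (by fun_prop)) (by fun_prop)
    exact PolyTime.itep (PolyTime.decide_le (by fun_prop) h1) (by fun_prop) (by fun_prop)
  · intro c k hk
    have h1 := hL (n c) (cl (n c) (F c)) k (hC (n c) (F c)).1
    change sz (lvs (cl (n c) (F c)) k) ≤ _
    have h2 : ∀ a ∈ lvs (cl (n c) (F c)) k, sz a ≤ (K0 * lg (N c)) * ((2 * n c + 6) + 1) + 1 := by
      intro a ha
      obtain ⟨g1, -, g3⟩ := h1.2.1 a ha
      refine (Pool.Agent.Helper51.ZP.sz_list_le (2 * n c + 6) a ?_).trans ?_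
      · intro p hp
        have h3 := g3 p hp
        have h4 := sz_bool p.2
        obtain ⟨v, b⟩ := p
        rw [sz_pair, sz_nat]
        simp only at h3 h4
        omega
      · exact Nat.add_le_add_right (Nat.mul_le_mul_right _ (g1.trans hk)) _
    refine (Pool.Agent.Helper51.ZP.sz_list_le _ _ h2).trans ?_
    refine Nat.add_le_add_right (Nat.mul_le_mul_right _ (h1.1.trans ?_)) _
    calc 2 ^ k ≤ 2 ^ (K0 * lg (N c)) := Nat.pow_le_pow_right (by norm_num) hk
      _ = (2 ^ lg (N c)) ^ K0 := by rw [mul_comm, pow_mul]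
      _ ≤ (4 * N c + 4) ^ K0 := Nat.pow_le_pow_left (two_pow_lg _) _

theorem pol (hC : ClnStmt) (hL : LevStmt) : PolStmt := by
  intro α _ n N f K0 hn hN hf
  have hfil : PolyTime fun z : α × (List Clause × Bool) =>
      (lvs (cl (n z.1) z.2.1) (K0 * lg (N z.1))).filter fun a =>
        decide (nx (cl (n z.1) z.2.1) a ≠ 0) := by
    refine PolyTime.filter (l := fun z : α × (List Clause × Bool) =>
      lvs (cl (n z.1) z.2.1) (K0 * lg (N z.1))) (f := fun z a =>
        decide (nx (cl (n z.1) z.2.1) a ≠ 0)) ?_ ?_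
    · exact pt_lvs hC hL K0 (n := fun z : α × (List Clause × Bool) => n z.1)
        (N := fun z => N z.1) (F := fun z => z.2.1) (PolyTime.comp hn (by fun_prop))
        (PolyTime.comp hN (by fun_prop)) (by fun_prop)
    · refine PolyTime.decide_ne (f := fun z : (α × (List Clause × Bool)) × List (ℕ × Bool) =>
        nx (cl (n z.1.1) z.1.2.1) z.2) (g := fun _ => 0) ?_ (by fun_prop)
      refine pt_nx (F := fun z : (α × (List Clause × Bool)) × List (ℕ × Bool) =>
        cl (n z.1.1) z.1.2.1) ?_ (by fun_prop)
      exact pt_cl (PolyTime.comp hn (by fun_prop)) (by fun_prop)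
  have hnx : PolyTime fun z : (α × (List Clause × Bool)) × List (ℕ × Bool) =>
      decide (nx (cl (n z.1.1) z.1.2.1) z.2 = 1) := by
    refine PolyTime.decide_eq (f := fun z : (α × (List Clause × Bool)) × List (ℕ × Bool) =>
        nx (cl (n z.1.1) z.1.2.1) z.2) (g := fun _ => 1) ?_ (by fun_prop)
    refine pt_nx (F := fun z : (α × (List Clause × Bool)) × List (ℕ × Bool) =>
      cl (n z.1.1) z.1.2.1) ?_ (by fun_prop)
    exact pt_cl (PolyTime.comp hn (by fun_prop)) (by fun_prop)
  constructor
  · unfold vls
    refine PolyTime.flatMap (l := f) (f := fun c e =>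
      ((lvs (cl (n c) e.1) (K0 * lg (N c))).filter fun a => decide (nx (cl (n c) e.1) a ≠ 0)).map
        fun a => (a, decide (nx (cl (n c) e.1) a = 1) && e.2)) hf ?_
    refine PolyTime.list_map (l := fun z : α × (List Clause × Bool) =>
      (lvs (cl (n z.1) z.2.1) (K0 * lg (N z.1))).filter fun a =>
        decide (nx (cl (n z.1) z.2.1) a ≠ 0)) (f := fun z a =>
        (a, decide (nx (cl (n z.1) z.2.1) a = 1) && z.2.2)) hfil ?_
    exact PolyTime.pair (by fun_prop) (PolyTime.and hnx (by fun_prop))
  · unfold ols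
    refine PolyTime.append ?_ (by fun_prop)
    refine PolyTime.flatMap (l := f) (f := fun c e =>
      ((lvs (cl (n c) e.1) (K0 * lg (N c))).filter fun a => decide (nx (cl (n c) e.1) a ≠ 0)).map
        fun a => (a, decide (nx (cl (n c) e.1) a = 1))) hf ?_
    refine PolyTime.list_map (l := fun z : α × (List Clause × Bool) =>
      (lvs (cl (n z.1) z.2.1) (K0 * lg (N z.1))).filter fun a =>
        decide (nx (cl (n z.1) z.2.1) a ≠ 0)) (f := fun z a =>
        (a, decide (nx (cl (n z.1) z.2.1) a = 1))) hfil ?_
    exact PolyTime.pair (by fun_prop) hnx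

end Pool.Agent.Helper30.SX
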